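import Pool.Agent.H.MP_a342dd_al.A

set_option autoImplicit false

namespace Pool.Agent.Results.MP_a342dd_al.Unequal

open MvPolynomial

/-- The `n`-th symbolic power over all associated primes. -/
noncomputable def symbPow {R : Type} [CommRing R] (I : Ideal R) (n : ℕ) : Ideal R :=
  ⨅ (P : PrimeSpectrum R) (_ : P.asIdeal ∈ associatedPrimes R (R ⧸ I)),
    ((I ^ n).map (algebraMap R (Localization.AtPrime P.asIdeal))).comap
      (algebraMap R (Localization.AtPrime P.asIdeal))

/-- The dimension over `k` of `I^(n) / (I ^ n + m I^(n))`. -/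
noncomputable def sdef (k : Type) [Field k] {R : Type} [CommRing R] [Algebra k R] (m I : Ideal R)
    (n : ℕ) : ℕ :=
  Module.finrank k (symbPow I n ⧸ Submodule.submoduleOf (I ^ n ⊔ m * symbPow I n) (symbPow I n))

/-- The ideal `(x z ^ 2, x y z, y ^ 2 z, y ^ 3)`. -/
def gens {R : Type} [CommRing R] (x y z : R) : Ideal R :=
  Ideal.span {x * z ^ 2, x * y * z, y ^ 2 * z, y ^ 3}

theorem result (k : Type) [Field k] (I : Ideal (MvPolynomial (Fin 3) k))
    (hI : I = gens (X 0) (X 1) (X 2)) (a : ℕ) :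
    sdef k (Ideal.span (Set.range X)) I (2 * a + 2) = 4 * a + 2 ∧
      sdef k (Ideal.span (Set.range X)) I (2 * a + 3) = 5 * a + 6 := by
  obtain rfl : I = Sdef.II k := hI
  have h : ∀ n, symbPow (Sdef.II k) n = PdFun.MI k (Sdef.E n) := by
    intro n
    ext f
    rw [Sdef.symb, symbPow]
    simp only [Ideal.mem_iInf, Ideal.mem_comap]
    constructor
    · intro h3 P hP
      have := hP.isPrime
      exact (IsLocalization.algebraMap_mem_map_algebraMap_iff P.primeCompl _ _ f).1
        (h3 ⟨P, this⟩ hP)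
    · intro h3 P hP
      exact (IsLocalization.algebraMap_mem_map_algebraMap_iff P.asIdeal.primeCompl _ _ f).2
        (h3 _ hP)
  have key : ∀ (n lo hi : ℕ) (b : ℕ), (∀ j, (2 ≤ j ∧ j ≤ lo ∨ ∃ s < hi, lo + b + 2 * s = j) ↔
      2 ≤ j ∧ j < 3 * (n + 2) ∧ (j ≤ n + 2 ∨ (j ≤ 2 * (n + 2) ∧ j % 2 = 0) ∨ j % 2 = n % 2)) →
      1 ≤ b → sdef k (Ideal.span (Set.range X)) (Sdef.II k) (n + 2) = lo - 1 + hi := by
    intro n lo hi b hj hb
    have e : ∀ A B : Ideal (MvPolynomial (Fin 3) k), A = B → Module.finrank k (A ⧸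
        Submodule.submoduleOf (Sdef.II k ^ (n + 2) ⊔ Ideal.span (Set.range X) * A) A) =
        Module.finrank k (B ⧸ Submodule.submoduleOf (Sdef.II k ^ (n + 2) ⊔
          Ideal.span (Set.range X) * B) B) := by
      rintro _ _ rfl
      rfl
    refine (e _ _ (h _)).trans ?_
    rw [Sdef.den, Sdef.count n (Finset.Icc 2 lo ∪ (Finset.range hi).image
      fun s => lo + b + 2 * s) (by simpa using hj), Finset.card_union_of_disjoint,
      Finset.card_image_of_injective _ fun s t h => by simpa using h]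
    · simp
    · rw [Finset.disjoint_left]
      intro j h1 h2
      simp only [Finset.mem_Icc, Finset.mem_image] at h1 h2
      obtain ⟨s, -, h2⟩ := h2
      omega
  refine ⟨(key (2 * a) (2 * a + 2) (2 * a + 1) 2
    (fun j => ⟨by rintro (h | ⟨s, h, h'⟩) <;> omega, fun h => ?_⟩)
    (by omega)).trans (by omega), (key (2 * a + 1) (4 * a + 6) (a + 1) 1
      (fun j => ⟨by rintro (h | ⟨s, h, h'⟩) <;> omega, fun h => ?_⟩) (by omega)).trans (by omega)⟩
  · by_cases h1 : j ≤ 2 * a + 2
    · omega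
    · exact Or.inr ⟨(j - (2 * a + 4)) / 2, by omega, by omega⟩
  · by_cases h1 : j ≤ 4 * a + 6
    · omega
    · exact Or.inr ⟨(j - (4 * a + 7)) / 2, by omega, by omega⟩

end Pool.Agent.Results.MP_a342dd_al.Unequal
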